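import Mathlib

/-!
Definitions for MP_95d7dd_gt (cancellation by 2 for regular-open equidecomposability types).
-/

namespace Canc

/-- The space `ℝⁿ` with its Euclidean metric. -/
abbrev E (n : ℕ) := EuclideanSpace ℝ (Fin n)

/-- The family `R_n` of bounded regular-open subsets of `ℝⁿ`. -/
def RO (n : ℕ) : Set (Set (E n)) :=
  {U | interior (closure U) = U ∧ Bornology.IsBounded U}

/-- Equidecomposability in `R_n`, written `A ∼ B`: there are pairwise disjoint `P i ∈ R_n` and
pairwise disjoint `Q i ∈ R_n` (`i < k`) and isometries `g i` of `ℝⁿ` with `g i (P i) = Q i`, such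
that `A = P 0 ∨ ... ∨ P (k-1)` and `B = Q 0 ∨ ... ∨ Q (k-1)`, where the join of finitely many
sets is the interior of the closure of their union. -/
def Equidec (n : ℕ) (A B : Set (E n)) : Prop :=
  ∃ (k : ℕ) (P Q : Fin k → Set (E n)) (g : Fin k → (E n ≃ᵢ E n)),
    (∀ i, P i ∈ RO n) ∧ (∀ i, Q i ∈ RO n) ∧
    (∀ i j, i ≠ j → Disjoint (P i) (P j)) ∧ (∀ i j, i ≠ j → Disjoint (Q i) (Q j)) ∧
    A = interior (closure (⋃ i, P i)) ∧ B = interior (closure (⋃ i, Q i)) ∧
    ∀ i, g i '' P i = Q i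

/-- `A` and `B` are at positive distance from each other. -/
def PosDist {n : ℕ} (A B : Set (E n)) : Prop :=
  ∃ ε : ℝ, 0 < ε ∧ ∀ x ∈ A, ∀ y ∈ B, ε ≤ dist x y

/-- The translate `a + A` of the set `A` by the vector `a`. -/
def shift {n : ℕ} (a : E n) (A : Set (E n)) : Set (E n) := (fun x => a + x) '' A

end Canc
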