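import Pool.Agent.Lib_helper11.CancelDefs
import Pool.Agent.Lib_helper2.Eq2Transp

/-!
Equidecomposability of bounded regular-open sets and the transport relation modulo meager sets.
-/

open Filter Topology Set

namespace Canc

section general

variable {X : Type*} [TopologicalSpace X] [BaireSpace X]

lemma open_subset_closure {U V : Set X} (hU : IsOpen U)
    (h : ∀ᶠ x in residual X, x ∈ U → x ∈ V) : U ⊆ closure V := by
  have hd : Dense {x | x ∈ U → x ∈ V} := dense_of_mem_residual h
  refine (hd.open_subset_closure_inter hU).trans (closure_mono ?_)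
  rintro x ⟨hx, hx'⟩
  exact hx' hx

lemma regopen_eq {U V : Set X} (hU : IsOpen U) (hV : IsOpen V)
    (h : ∀ᶠ x in residual X, x ∈ U ↔ x ∈ V) : closure U = closure V := by
  apply Subset.antisymm
  · exact closure_minimal (open_subset_closure hU (h.mono fun x hx => hx.1)) isClosed_closure
  · exact closure_minimal (open_subset_closure hV (h.mono fun x hx => hx.2)) isClosed_closure

lemma open_empty {U : Set X} (hU : IsOpen U) (h : ∀ᶠ x in residual X, x ∉ U) : U = ∅ := by
  have h2 : U ⊆ closure (∅ : Set X) :=
    open_subset_closure hU (h.mono fun x hx hx' => (hx hx').elim)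
  simpa using h2

end general

lemma intcl_residual {X : Type*} [TopologicalSpace X] {O : Set X} (hO : IsOpen O) :
    ∀ᶠ x in residual X, x ∈ interior (closure O) ↔ x ∈ O := by
  have h := closure_residualEq hO.isLocallyClosed
  rw [Filter.eventuallyEq_set] at h
  filter_upwards [h] with x hx
  constructor
  · intro hx'
    exact hx.1 (interior_subset hx')
  · intro hx'
    exact interior_maximal subset_closure hO hx'

variable {n : ℕ}

lemma RO.isOpen {U : Set (E n)} (h : U ∈ RO n) : IsOpen U := by
  rw [← h.1]; exact isOpen_interior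

/-- the indicator function -/
noncomputable def ind (A : Set (E n)) : E n → ℕ := fun x => A.indicator (fun _ => 1) x

lemma ind_measurable {A : Set (E n)} (hA : MeasurableSet A) : Measurable (ind A) :=
  measurable_const.indicator hA

lemma ind_mem {A : Set (E n)} {x : E n} (h : x ∈ A) : ind A x = 1 := by simp [ind, h]

lemma ind_not_mem {A : Set (E n)} {x : E n} (h : x ∉ A) : ind A x = 0 := by simp [ind, h]

lemma sum_ind_disjoint {k : ℕ} {P : Fin k → Set (E n)} (hP : ∀ i j, i ≠ j → Disjoint (P i) (P j))
    (x : E n) : ∑ i, ind (P i) x = ind (⋃ i, P i) x := by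
  classical
  by_cases hx : x ∈ ⋃ i, P i
  · rw [ind_mem hx]
    obtain ⟨i, hi⟩ := mem_iUnion.1 hx
    rw [Finset.sum_eq_single i]
    · exact ind_mem hi
    · intro j _ hj
      apply ind_not_mem
      intro hxj
      exact (Set.disjoint_left.1 (hP j i hj)) hxj hi
    · intro h; exact absurd (Finset.mem_univ i) h
  · rw [ind_not_mem hx]
    apply Finset.sum_eq_zero
    intro i _
    apply ind_not_mem
    intro h
    exact hx (mem_iUnion.2 ⟨i, h⟩)

lemma ind_join {k : ℕ} {P : Fin k → Set (E n)} (hP : ∀ i j, i ≠ j → Disjoint (P i) (P j))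
    (hO : ∀ i, IsOpen (P i)) {A : Set (E n)} (hA : A = interior (closure (⋃ i, P i))) :
    ind A =ᶠ[residual (E n)] fun x => ∑ i, ind (P i) x := by
  have h := intcl_residual (isOpen_iUnion hO)
  filter_upwards [h] with x hx
  rw [sum_ind_disjoint hP]
  subst hA
  by_cases hx' : x ∈ ⋃ i, P i
  · rw [ind_mem hx', ind_mem (hx.2 hx')]
  · rw [ind_not_mem hx', ind_not_mem (fun h => hx' (hx.1 h))]

lemma Equidec.transp {A B : Set (E n)} (h : Equidec n A B) :
    Eq2.Transp (Eq2.isoms (E n)) (ind A) (ind B) := by
  obtain ⟨k, P, Q, g, hP, hQ, hPd, hQd, hA, hB, hg⟩ := h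
  refine ⟨k, fun i => ind (P i), fun i => (g i).toHomeomorph, fun i => ?_, fun i => ?_, ?_, ?_⟩
  · exact ind_measurable (RO.isOpen (hP i)).measurableSet
  · exact (g i).isometry
  · exact ind_join hPd (fun i => RO.isOpen (hP i)) hA
  · refine (ind_join hQd (fun i => RO.isOpen (hQ i)) hB).trans (Eventually.of_forall fun x => ?_)
    refine Finset.sum_congr rfl fun i _ => ?_
    have : x ∈ Q i ↔ (g i).toHomeomorph.symm x ∈ P i := by
      rw [← hg i]
      constructor
      · rintro ⟨y, hy, rfl⟩
        have : (g i).toHomeomorph.symm ((g i) y) = y := (g i).symm_apply_apply y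
        rw [this]; exact hy
      · intro hy
        refine ⟨_, hy, ?_⟩
        exact (g i).apply_symm_apply x
    change ind (Q i) x = ind (P i) ((g i).toHomeomorph.symm x)
    by_cases hx : x ∈ Q i
    · rw [ind_mem hx, ind_mem (this.1 hx)]
    · rw [ind_not_mem hx, ind_not_mem (fun h => hx (this.2 h))]

/-- A family of open sets representing the supports of functions with sum `1_A`. -/
lemma family {k : ℕ} {A : Set (E n)} (hA : A ∈ RO n) {η : Fin k → E n → ℕ}
    (hη : ind A =ᶠ[residual (E n)] fun x => ∑ i, η i x)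
    {R : Fin k → Set (E n)} (hRo : ∀ i, IsOpen (R i))
    (hR : ∀ i, ∀ᶠ x in residual (E n), x ∈ R i ↔ η i x ≠ 0) :
    (∀ i j, i ≠ j → Disjoint (R i) (R j)) ∧ (∀ i, R i ⊆ closure A) ∧
      A = interior (closure (⋃ i, R i)) := by
  classical
  have hall := eventually_all.2 hR
  refine ⟨?_, ?_, ?_⟩
  · intro i j hij
    rw [Set.disjoint_iff_inter_eq_empty]
    apply open_empty ((hRo i).inter (hRo j))
    filter_upwards [hall, hη] with x hx hx'
    rintro ⟨hxi, hxj⟩
    have h1 := (hx i).1 hxi
    have h2 := (hx j).1 hxj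
    have h3 : η i x + η j x ≤ ∑ l, η l x := by
      have := Finset.sum_le_sum_of_subset (f := fun l => η l x) (Finset.subset_univ {i, j})
      rw [Finset.sum_pair hij] at this
      exact this
    have h4 : ind A x ≤ 1 := by
      unfold ind
      by_cases hxA : x ∈ A <;> simp [hxA]
    rw [hx'] at h4
    omega
  · intro i
    apply open_subset_closure (hRo i)
    filter_upwards [hall, hη] with x hx hx' hxi
    by_contra hxA
    rw [ind_not_mem hxA] at hx'
    have h1 := (hx i).1 hxi
    have h2 : η i x ≤ ∑ l, η l x :=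
      Finset.single_le_sum (f := fun l => η l x) (fun _ _ => Nat.zero_le _) (Finset.mem_univ i)
    omega
  · conv_lhs => rw [← hA.1]
    congr 1
    apply regopen_eq (RO.isOpen hA) (isOpen_iUnion hRo)
    filter_upwards [hall, hη] with x hx hx'
    constructor
    · intro hxA
      rw [ind_mem hxA] at hx'
      by_contra hcon
      have : ∑ l, η l x = 0 := by
        apply Finset.sum_eq_zero
        intro l _
        by_contra hl
        exact hcon (mem_iUnion.2 ⟨l, (hx l).2 hl⟩)
      omega
    · intro hxU
      obtain ⟨i, hi⟩ := mem_iUnion.1 hxU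
      by_contra hxA
      rw [ind_not_mem hxA] at hx'
      have h1 := (hx i).1 hi
      have h2 : η i x ≤ ∑ l, η l x :=
        Finset.single_le_sum (f := fun l => η l x) (fun _ _ => Nat.zero_le _) (Finset.mem_univ i)
      omega

lemma Equidec.of_transp {A B : Set (E n)} (hA : A ∈ RO n) (hB : B ∈ RO n)
    (h : Eq2.Transp (Eq2.isoms (E n)) (ind A) (ind B)) : Equidec n A B := by
  obtain ⟨k, θ, g, hθ, hg, hu, hv⟩ := h
  have hO : ∀ i, ∃ u : Set (E n), IsOpen u ∧ {x | θ i x ≠ 0} =ᶠ[residual (E n)] u := by
    intro i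
    apply MeasurableSet.residualEq_isOpen
    exact (hθ i) (MeasurableSet.compl (measurableSet_singleton 0))
  choose O hOo hOeq using hO
  let P : Fin k → Set (E n) := fun i => interior (closure (O i))
  have hPo : ∀ i, IsOpen (P i) := fun i => isOpen_interior
  have hPeq : ∀ i, ∀ᶠ x in residual (E n), x ∈ P i ↔ θ i x ≠ 0 := by
    intro i
    have h1 := intcl_residual (hOo i)
    have h2 := hOeq i
    rw [Filter.eventuallyEq_set] at h2
    filter_upwards [h1, h2] with x hx1 hx2
    exact hx1.trans hx2.symm
  obtain ⟨hPd, hPs, hPA⟩ := family hA hu hPo hPeq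
  let Q : Fin k → Set (E n) := fun i => g i '' P i
  have hQo : ∀ i, IsOpen (Q i) := fun i => (g i).isOpenMap _ (hPo i)
  have hQmem : ∀ i x, x ∈ Q i ↔ (g i).symm x ∈ P i := by
    intro i x
    constructor
    · rintro ⟨y, hy, rfl⟩
      simpa using hy
    · intro hy
      exact ⟨_, hy, by simp⟩
  have hQeq : ∀ i, ∀ᶠ x in residual (E n), x ∈ Q i ↔ θ i ((g i).symm x) ≠ 0 := by
    intro i
    filter_upwards [Eq2.res_comp (g i).symm (hPeq i)] with x hx
    rw [hQmem]
    exact hx
  obtain ⟨hQd, hQs, hQB⟩ := family hB hv hQo hQeq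
  have hreg : ∀ i, interior (closure (P i)) = P i := by
    intro i
    simp only [P]
    apply Subset.antisymm
    · apply interior_mono
      exact closure_minimal interior_subset isClosed_closure
    · exact interior_maximal subset_closure isOpen_interior
  refine ⟨k, P, Q, fun i => IsometryEquiv.mk (g i).toEquiv (hg i), ?_, ?_, hPd, hQd, hPA, hQB, ?_⟩
  · intro i
    exact ⟨hreg i, hA.2.closure.subset (hPs i)⟩
  · intro i
    refine ⟨?_, hB.2.closure.subset (hQs i)⟩
    simp only [Q]
    rw [← (g i).image_closure, ← (g i).image_interior, hreg i]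
  · intro i
    rfl

/-- `1_{A ∪ (a+A)}` and `2 * 1_A` are related by transport. -/
lemma double_transp {A : Set (E n)} (hA : A ∈ RO n) (a : E n) (hd : PosDist A (shift a A)) :
    Eq2.Transp (Eq2.isoms (E n)) (fun x => 2 * ind A x) (ind (A ∪ shift a A)) := by
  have hm : Measurable (ind A) := ind_measurable (RO.isOpen hA).measurableSet
  have h1 : Eq2.Transp (Eq2.isoms (E n)) (ind A) (ind A) :=
    Eq2.Transp.refl (Eq2.isGrp_isoms (E n)) hm
  have h2 : Eq2.Transp (Eq2.isoms (E n)) (ind A) (fun x => ind A ((Homeomorph.addLeft a).symm x)) :=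
    Eq2.Transp.single hm (g := Homeomorph.addLeft a) (isometry_add_left a)
  refine (h1.add h2).congr (Eventually.of_forall fun x => ?_) (Eventually.of_forall fun x => ?_)
  · exact two_mul _
  · have hmem : x ∈ shift a A ↔ (Homeomorph.addLeft a).symm x ∈ A := by
      constructor
      · rintro ⟨y, hy, rfl⟩
        have : (Homeomorph.addLeft a).symm (a + y) = y :=
          (Homeomorph.addLeft a).symm_apply_apply y
        rw [this]
        exact hy
      · intro hy
        exact ⟨_, hy, (Homeomorph.addLeft a).apply_symm_apply x⟩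
    change ind (A ∪ shift a A) x = ind A x + ind A ((Homeomorph.addLeft a).symm x)
    by_cases hx : x ∈ A
    · have hx2 : x ∉ shift a A := by
        intro hx2
        obtain ⟨ε, hε, h⟩ := hd
        have := h x hx x hx2
        rw [dist_self] at this
        linarith
      rw [ind_mem (Or.inl hx), ind_mem hx, ind_not_mem (fun h => hx2 (hmem.2 h))]
    · by_cases hx2 : x ∈ shift a A
      · rw [ind_mem (Or.inr hx2), ind_not_mem hx, ind_mem (hmem.1 hx2)]
      · rw [ind_not_mem (by rintro (h | h); exacts [hx h, hx2 h]), ind_not_mem hx,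
          ind_not_mem (fun h => hx2 (hmem.2 h))]

/-- Reduction of the cancellation law to the transport relation. -/
theorem cancel_of_transp
    (main : ∀ A B : Set (E n), MeasurableSet A → MeasurableSet B → Bornology.IsBounded A →
      Bornology.IsBounded B →
      Eq2.Transp (Eq2.isoms (E n)) (fun x => 2 * ind A x) (fun x => 2 * ind B x) →
      Eq2.Transp (Eq2.isoms (E n)) (ind A) (ind B))
    (A B : Set (E n)) (hA : A ∈ RO n) (hB : B ∈ RO n) (a b : E n)
    (ha : PosDist A (shift a A)) (hb : PosDist B (shift b B))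
    (h : Equidec n (A ∪ shift a A) (B ∪ shift b B)) : Equidec n A B := by
  refine Equidec.of_transp hA hB (main A B (RO.isOpen hA).measurableSet
    (RO.isOpen hB).measurableSet hA.2 hB.2 ?_)
  have hG := Eq2.isGrp_isoms (E n)
  exact ((double_transp hA a ha).trans hG h.transp).trans hG ((double_transp hB b hb).symm hG)

end Canc
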